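import Pool.Agent.Run7.h404.FL.Iface

/-!
# Project FL (helper483): every 2-cocycle is cohomologous to one vanishing near the lines
-/

set_option autoImplicit false

namespace Run7.h483.FL

open Set Topology Filter
open Run7.h404.FL

/-- **BETA** -/
theorem t_BETA (hN : S_NEAR) (hS : S_SECX) (hB2 : S_B2) : S_BETA := by
  intro Q _ _ Φ p hF a ha hal
  obtain ⟨s, hs1, hs2⟩ := hS Q Φ p hF
  set L : Set Q := {q | ¬ Cp p q} with hL
  have hLc : IsCompact L := (hN Q Φ p hF).2.2.1.isCompact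
  have him : IsCompact (s '' L) := hLc.image_of_continuousOn fun q hq =>
    (hs2 q hq).continuousWithinAt
  obtain ⟨R, hR⟩ := him.isBounded.exists_norm_le
  obtain ⟨θ, hθ⟩ := hB2 (fun x y z => a (p x) (p y) (p z)) (fun x => by
    obtain ⟨U, hU, h⟩ := ha (p x)
    exact ⟨p ⁻¹' U, hF.pcont.continuousAt.preimage_mem_nhds hU,
      fun y hy z hz w hw v hv => h (p y) hy (p z) hz (p w) hw (p v) hv⟩) (R + 1)
  refine ⟨fun x y => (θ (s x) (s y) - θ (s y) (s x)) / 2, fun x y => by ring, fun q hq => ?_⟩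
  have h1 : ‖s q‖ < R + 1 := by
    have := hR (s q) (mem_image_of_mem s hq)
    linarith
  obtain ⟨V, hV, h2⟩ := hθ (s q) h1
  obtain ⟨U, hU, h3⟩ := hal q
  refine ⟨s ⁻¹' V ∩ U, inter_mem ((hs2 q hq).preimage_mem_nhds hV) hU,
    fun y hy z hz w hw => ?_⟩
  have e1 := h2 (s y) hy.1 (s z) hz.1 (s w) hw.1
  have e2 := h2 (s w) hw.1 (s z) hz.1 (s y) hy.1
  beta_reduce at e1 e2
  rw [hs1, hs1, hs1] at e1 e2
  have a1 := (h3 z hz.2 w hw.2 y hy.2).1
  have a2 := (h3 z hz.2 y hy.2 w hw.2).2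
  have a3 := (h3 y hy.2 z hz.2 w hw.2).1
  unfold dd at e1 e2 ⊢
  linarith

end Run7.h483.FL
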