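import Pool.Agent.Run7.h404.FL.Iface

/-!
# Project FL (helper483): closed 2-cochains on the euclidean space are exact on balls
-/

set_option autoImplicit false

namespace Run7.h483.FL

open Set Topology Filter
open Run7.h404.FL

/-- the open boxes -/
def Bx (l u : Fin 5 → ℝ) : Set E5 := {x | ∀ i, l i < x i ∧ x i < u i}

theorem cont_coord (i : Fin 5) : Continuous fun x : E5 => x i :=
  (EuclideanSpace.proj i : E5 →L[ℝ] ℝ).continuous

theorem Bx_eq (l u : Fin 5 → ℝ) :
    Bx l u = ⋂ i, (EuclideanSpace.proj i : E5 →L[ℝ] ℝ) ⁻¹' Ioo (l i) (u i) := by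
  ext x
  simp only [Bx, mem_ofPred_eq, mem_iInter, mem_preimage, mem_Ioo]
  rfl

theorem isOpen_Bx (l u : Fin 5 → ℝ) : IsOpen (Bx l u) := by
  rw [Bx_eq]
  exact isOpen_iInter_of_finite fun i =>
    isOpen_Ioo.preimage (EuclideanSpace.proj i : E5 →L[ℝ] ℝ).continuous

theorem convex_Bx (l u : Fin 5 → ℝ) : Convex ℝ (Bx l u) := by
  rw [Bx_eq]
  exact convex_iInter fun i =>
    (convex_Ioo (l i) (u i)).linear_preimage (EuclideanSpace.proj i : E5 →L[ℝ] ℝ).toLinearMap

/-- a primitive on a set -/
def Good (a : E5 → E5 → E5 → ℝ) (O : Set E5) : Prop :=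
  ∃ b : E5 → E5 → ℝ, ∀ x ∈ O, D2 b a x

/-- Mayer-Vietoris for boxes -/
theorem mv (hCV : S_CV) {a : E5 → E5 → E5 → ℝ} {l u : Fin 5 → ℝ} {i : Fin 5} {c ε : ℝ}
    (hε : 0 < ε)
    (hA : Good a (Bx l (Function.update u i (c + ε))))
    (hB : Good a (Bx (Function.update l i (c - ε)) u)) : Good a (Bx l u) := by
  obtain ⟨bA, hbA⟩ := hA
  obtain ⟨bB, hbB⟩ := hB
  set A := Bx l (Function.update u i (c + ε)) with hAdef
  set B := Bx (Function.update l i (c - ε)) u with hBdef
  have memA : ∀ x ∈ Bx l u, x i < c + ε → x ∈ A := by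
    intro x hx hxi j
    by_cases hj : j = i
    · subst hj
      rw [Function.update_self]
      exact ⟨(hx j).1, hxi⟩
    · rw [Function.update_of_ne hj]
      exact hx j
  have memB : ∀ x ∈ Bx l u, c - ε < x i → x ∈ B := by
    intro x hx hxi j
    by_cases hj : j = i
    · subst hj
      rw [Function.update_self]
      exact ⟨hxi, (hx j).2⟩
    · rw [Function.update_of_ne hj]
      exact hx j
  -- the difference of the primitives
  obtain ⟨f, hf⟩ := hCV E5 (A ∩ B) (fun y z => bA y z - bB y z)
    ((isOpen_Bx _ _).inter (isOpen_Bx _ _)) ((convex_Bx _ _).inter (convex_Bx _ _)) (by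
      rintro x ⟨hxA, hxB⟩
      obtain ⟨U, hU, h1⟩ := hbA x hxA
      obtain ⟨V, hV, h2⟩ := hbB x hxB
      refine ⟨U ∩ V, inter_mem hU hV, fun y hy z hz w hw => ?_⟩
      have e1 := h1 y hy.1 z hz.1 w hw.1
      have e2 := h2 y hy.2 z hz.2 w hw.2
      unfold dd at e1 e2 ⊢
      linarith)
  refine ⟨fun y z => if y i ≤ c ∧ z i ≤ c then bA y z - (f z - f y) else bB y z, ?_⟩
  intro x hx
  rcases lt_trichotomy (x i) c with hlt | heq | hgt
  · obtain ⟨U, hU, h1⟩ := hbA x (memA x hx (by linarith))
    have hW : {y : E5 | y i < c} ∈ 𝓝 x := (isOpen_lt (cont_coord i) continuous_const).mem_nhds hlt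
    refine ⟨U ∩ {y : E5 | y i < c}, inter_mem hU hW, fun y hy z hz w hw => ?_⟩
    rw [h1 y hy.1 z hz.1 w hw.1]
    have y1 : y i ≤ c := le_of_lt hy.2
    have z1 : z i ≤ c := le_of_lt hz.2
    have w1 : w i ≤ c := le_of_lt hw.2
    unfold dd
    beta_reduce
    rw [if_pos ⟨z1, w1⟩, if_pos ⟨y1, w1⟩, if_pos ⟨y1, z1⟩]
    ring
  · have hxA := memA x hx (by linarith)
    have hxB := memB x hx (by linarith)
    obtain ⟨U, hU, h1⟩ := hbB x hxB
    obtain ⟨V, hV, h2⟩ := hf x ⟨hxA, hxB⟩
    refine ⟨U ∩ V, inter_mem hU hV, fun y hy z hz w hw => ?_⟩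
    rw [h1 y hy.1 z hz.1 w hw.1]
    have key : ∀ p ∈ U ∩ V, ∀ q ∈ U ∩ V,
        (if p i ≤ c ∧ q i ≤ c then bA p q - (f q - f p) else bB p q) = bB p q := by
      intro p hp q hq
      have h3 := h2 p hp.2 q hq.2
      split_ifs
      · linarith
      · rfl
    unfold dd
    beta_reduce
    rw [key z hz w hw, key y hy w hw, key y hy z hz]
  · obtain ⟨U, hU, h1⟩ := hbB x (memB x hx (by linarith))
    have hW : {y : E5 | c < y i} ∈ 𝓝 x := (isOpen_lt continuous_const (cont_coord i)).mem_nhds hgt
    refine ⟨U ∩ {y : E5 | c < y i}, inter_mem hU hW, fun y hy z hz w hw => ?_⟩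
    rw [h1 y hy.1 z hz.1 w hw.1]
    have y1 : ¬ y i ≤ c := not_le.2 hy.2
    have z1 : ¬ z i ≤ c := not_le.2 hz.2
    unfold dd
    beta_reduce
    rw [if_neg fun h => z1 h.1, if_neg fun h => y1 h.1, if_neg fun h => y1 h.1]

theorem norm_le' (x : E5) {t : ℝ} (ht : 0 ≤ t) (h : ∀ i, |x i| ≤ t) : ‖x‖ ≤ 3 * t := by
  rw [EuclideanSpace.norm_eq]
  refine Real.sqrt_le_iff.2 ⟨by positivity, ?_⟩
  have h1 : ∀ i, ‖x i‖ ^ 2 ≤ t ^ 2 := by
    intro i
    rw [Real.norm_eq_abs]
    exact pow_le_pow_left₀ (abs_nonneg _) (h i) 2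
  rw [Fin.sum_univ_five]
  nlinarith [h1 0, h1 1, h1 2, h1 3, h1 4, sq_nonneg t]

/-- small sets are good -/
theorem small {a : E5 → E5 → E5 → ℝ} (ha : ∀ x, C2 a x) (R : ℝ) (hR : 0 < R) :
    ∃ s : ℝ, 0 < s ∧ ∀ l u : Fin 5 → ℝ, (∀ i, -R ≤ l i ∧ u i ≤ R) → (∀ i, u i - l i ≤ s) →
      Good a (Bx l u) := by
  choose U hU hUa using ha
  obtain ⟨δ, hδ, hb⟩ := lebesgue_number_lemma_of_metric (s := Metric.closedBall (0 : E5) (3 * R))
    (c := fun x : E5 => interior (U x)) (isCompact_closedBall _ _) (fun x => isOpen_interior)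
    (fun x _ => mem_iUnion.2 ⟨x, mem_interior_iff_mem_nhds.2 (hU x)⟩)
  refine ⟨δ / 4, by positivity, fun l u hlu hs => ?_⟩
  by_cases hne : (Bx l u).Nonempty
  · obtain ⟨x₀, hx₀⟩ := hne
    have hK : x₀ ∈ Metric.closedBall (0 : E5) (3 * R) := by
      rw [mem_closedBall_zero_iff]
      refine norm_le' x₀ hR.le fun i => ?_
      have h1 := hx₀ i
      have h2 := hlu i
      rw [abs_le]
      constructor <;> linarith
    obtain ⟨y, hy⟩ := hb x₀ hK
    refine ⟨a y, fun x hx => ?_⟩
    have hxU : x ∈ interior (U y) := by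
      apply hy
      rw [Metric.mem_ball, dist_eq_norm]
      have h1 : ‖x - x₀‖ ≤ 3 * (δ / 4) := by
        refine norm_le' _ (by positivity) fun i => ?_
        have h1 := hx i
        have h2 := hx₀ i
        have h3 := hs i
        rw [PiLp.sub_apply, abs_le]
        constructor <;> linarith
      linarith
    refine ⟨U y, mem_interior_iff_mem_nhds.1 hxU, fun z hz w hw v hv => ?_⟩
    have h := hUa y y (mem_of_mem_nhds (hU y)) z hz w hw v hv
    unfold dd
    linarith
  · exact ⟨fun _ _ => 0, fun x hx => absurd ⟨x, hx⟩ hne⟩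

/-- **B2** -/
theorem t_B2 (hCV : S_CV) : S_B2 := by
  intro a ha R
  rcases le_or_gt R 0 with hR | hR
  · exact ⟨fun _ _ => 0, fun x hx => absurd hx (not_lt.2 (hR.trans (norm_nonneg x)))⟩
  obtain ⟨s, hs, hsm⟩ := small ha R hR
  have key : ∀ k : ℕ, k ≤ 5 → ∀ l u : Fin 5 → ℝ, (∀ i, -R ≤ l i ∧ u i ≤ R) →
      (∀ i : Fin 5, k ≤ i.val → u i - l i ≤ s) → Good a (Bx l u) := by
    intro k
    induction k with
    | zero =>
      intro _ l u hlu hs'
      exact hsm l u hlu fun i => hs' i (Nat.zero_le _)
    | succ k ih =>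
      intro hk
      have ih' := ih (by omega)
      set i₀ : Fin 5 := ⟨k, by omega⟩ with hi₀
      -- the case of a short side
      have short : ∀ l u : Fin 5 → ℝ, (∀ i, -R ≤ l i ∧ u i ≤ R) →
          (∀ i : Fin 5, k + 1 ≤ i.val → u i - l i ≤ s) → u i₀ - l i₀ ≤ s → Good a (Bx l u) := by
        intro l u hlu h1 h2
        refine ih' l u hlu fun i hi => ?_
        rcases Nat.lt_or_ge i.val (k + 1) with h | h
        · have : i = i₀ := Fin.ext (by simp only [hi₀]; omega)
          rw [this]
          exact h2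
        · exact h1 i h
      have inner : ∀ n : ℕ, ∀ l u : Fin 5 → ℝ, (∀ i, -R ≤ l i ∧ u i ≤ R) →
          (∀ i : Fin 5, k + 1 ≤ i.val → u i - l i ≤ s) → u i₀ - l i₀ ≤ s * (1 + n / 2) →
          Good a (Bx l u) := by
        intro n
        induction n with
        | zero =>
          intro l u hlu h1 h2
          refine short l u hlu h1 ?_
          simpa using h2
        | succ n ihn =>
          intro l u hlu h1 h2
          rcases le_or_gt (u i₀ - l i₀) s with h3 | h3
          · exact short l u hlu h1 h3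
          · have g1 : l i₀ + 3 * s / 4 + s / 4 = l i₀ + s := by ring
            have g2 : l i₀ + 3 * s / 4 - s / 4 = l i₀ + s / 2 := by ring
            refine mv hCV (i := i₀) (c := l i₀ + 3 * s / 4) (ε := s / 4) (by positivity) ?_ ?_
            · rw [g1]
              refine short _ _ ?_ ?_ ?_
              · intro j
                by_cases hj : j = i₀
                · subst hj
                  rw [Function.update_self]
                  exact ⟨(hlu i₀).1, by linarith [(hlu i₀).2]⟩
                · rw [Function.update_of_ne hj]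
                  exact hlu j
              · intro j hj
                have hj' : j ≠ i₀ := by
                  rintro rfl
                  simp only [hi₀] at hj
                  omega
                rw [Function.update_of_ne hj']
                exact h1 j hj
              · rw [Function.update_self]
                linarith
            · rw [g2]
              refine ihn _ _ ?_ ?_ ?_
              · intro j
                by_cases hj : j = i₀
                · subst hj
                  rw [Function.update_self]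
                  exact ⟨by linarith [(hlu i₀).1], (hlu i₀).2⟩
                · rw [Function.update_of_ne hj]
                  exact hlu j
              · intro j hj
                have hj' : j ≠ i₀ := by
                  rintro rfl
                  simp only [hi₀] at hj
                  omega
                rw [Function.update_of_ne hj']
                exact h1 j hj
              · rw [Function.update_self]
                push_cast at h2
                linarith
      intro l u hlu h1
      obtain ⟨n, hn⟩ := exists_nat_gt (2 * (u i₀ - l i₀) / s)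
      refine inner n l u hlu h1 ?_
      rw [div_lt_iff₀ hs] at hn
      linarith
  obtain ⟨b, hb⟩ := key 5 le_rfl (fun _ => -R) (fun _ => R) (fun _ => ⟨le_rfl, le_rfl⟩)
    (fun i hi => absurd i.isLt (by omega))
  refine ⟨b, fun x hx => hb x fun i => ?_⟩
  have h1 : |x i| ≤ ‖x‖ := by
    have := PiLp.norm_apply_le x i
    rwa [Real.norm_eq_abs] at this
  have h2 := abs_lt.1 (lt_of_le_of_lt h1 hx)
  exact ⟨h2.1, h2.2⟩

end Run7.h483.FL
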